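import Mathlib
import Pool.Agent.H.MP_416390_gt.T

namespace Pool.Agent.Results.MP_416390_gt.No

open MeasureTheory

section
variable {E : Type} [NormedAddCommGroup E] [InnerProductSpace ℝ E] [FiniteDimensional ℝ E]

/-- Lebesgue measure of a set in a finite-dimensional Euclidean space -/
noncomputable def vol [MeasurableSpace E] [BorelSpace E] (S : Set E) : ENNReal := volume S

/-- volume, inside `H`, of the orthogonal projection of `S` onto `H` -/
noncomputable def projVol [MeasurableSpace E] [BorelSpace E] (H : Submodule ℝ E) (S : Set E) :
    ENNReal := vol (E := H) (H.orthogonalProjectionOnto '' S)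

/-- length of the orthogonal projection of `x` onto `H` -/
noncomputable def projLen (H : Submodule ℝ E) (x : E) : ℝ := ‖H.starProjection x‖

/-- dimension of a subspace -/
noncomputable def dim (H : Submodule ℝ E) : ℕ := Module.finrank ℝ H

/-- some `k`-dimensional subspace has a larger shadow of `S` than every `k`-dimensional subspace
on which all vectors `e i` have projections of equal length -/
def Beats [MeasurableSpace E] [BorelSpace E] (k : ℕ) (S : Set E) {ι : Type} (e : ι → E) : Prop :=
  ∃ H₀ : Submodule ℝ E, dim H₀ = k ∧ ∀ H : Submodule ℝ E, dim H = k →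
    (∀ i j, projLen H (e i) = projLen H (e j)) → projVol H S < projVol H₀ S

end

theorem result : Beats (E := EuclideanSpace ℝ (Fin 7)) 3 {x | ∀ i, x i ∈ Set.Icc (0 : ℝ) 1}
    fun i : Fin 7 => EuclideanSpace.single i 1 :=
  Pool.Agent.H.MP_416390_gt.main

end Pool.Agent.Results.MP_416390_gt.No
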